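import Pool.Agent.H80.G2.Targets

/-!
# MP_323167_an, property Gamma: transfer of almost central elements
-/

set_option autoImplicit false

open scoped InnerProductSpace Topology
open Filter Finset

namespace Pool.Agent.H39.G2

open Pool.Agent.H80.G2

variable {H : Type} [NormedAddCommGroup H] [InnerProductSpace ℂ H] [CompleteSpace H]

/-- products of close contractions -/
theorem mul_close {a b c d : H →L[ℂ] H} {r s α β : ℝ} (hb : ‖b‖ ≤ β) (hc : ‖c‖ ≤ α)
    (hac : ‖a - c‖ ≤ r) (hbd : ‖b - d‖ ≤ s) (hr : 0 ≤ r) :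
    ‖a * b - c * d‖ ≤ r * β + α * s := by
  have h1 : a * b - c * d = (a - c) * b + c * (b - d) := by noncomm_ring
  rw [h1]
  refine (norm_add_le _ _).trans (add_le_add ?_ ?_)
  · refine (norm_mul_le _ _).trans ?_
    exact mul_le_mul hac hb (norm_nonneg _) hr
  · refine (norm_mul_le _ _).trans ?_
    exact mul_le_mul hc hbd (norm_nonneg _) ((norm_nonneg _).trans hc)

theorem mul_norm_two {a b : H →L[ℂ] H} {α β : ℝ} (ha : ‖a‖ ≤ α) (hb : ‖b‖ ≤ β) :
    ‖a * b‖ ≤ α * β :=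
  (norm_mul_le _ _).trans (mul_le_mul ha hb (norm_nonneg _) ((norm_nonneg _).trans ha))

theorem comm_norm {a b : H →L[ℂ] H} (ha : ‖a‖ ≤ 1) (hb : ‖b‖ ≤ 1) : ‖a * b - b * a‖ ≤ 2 := by
  refine (norm_sub_le _ _).trans ?_
  have h1 := mul_norm_two ha hb
  have h2 := mul_norm_two hb ha
  linarith

/-- the 2-norm of a commutator in the close algebra -/
theorem comm_close (hTRC : T_TRC) (M N : VonNeumannAlgebra H) (ξ ζ : ℕ → H) (hM : IsFac M)
    (hζ : IsTr M ζ) (hξ : IsTr N ξ) (hMN : Nr (1 / 100) M N) {u y : H →L[ℂ] H}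
    (hu : u ∈ M) (hy : y ∈ M) (hu1 : ‖u‖ ≤ 1) (hy1 : ‖y‖ ≤ 1) {V w : H →L[ℂ] H}
    (hV : V ∈ N) (hw : w ∈ N) (hV1 : ‖V‖ ≤ 1) (hw1 : ‖w‖ ≤ 1) (huV : ‖u - V‖ ≤ 1 / 100)
    (hyw : ‖w - y‖ ≤ 1 / 100) (hs : n2 ζ (u * y - y * u) < 1 / 32) :
    n2 ξ (w * V - V * w) ≤ Real.sqrt (321 / 1000) := by
  have hVu : ‖V - u‖ ≤ 1 / 100 := by rw [norm_sub_rev]; exact huV
  obtain ⟨a, ha⟩ : ∃ a, a = w * V - V * w := ⟨_, rfl⟩
  obtain ⟨b, hb⟩ : ∃ b, b = y * u - u * y := ⟨_, rfl⟩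
  have haN : a ∈ N := by rw [ha]; exact sub_mem (mul_mem hw hV) (mul_mem hV hw)
  have hbM : b ∈ M := by rw [hb]; exact sub_mem (mul_mem hy hu) (mul_mem hu hy)
  have ha2 : ‖a‖ ≤ 2 := by rw [ha]; exact comm_norm hw1 hV1
  have hb2 : ‖b‖ ≤ 2 := by rw [hb]; exact comm_norm hy1 hu1
  have hab : ‖a - b‖ ≤ 4 / 100 := by
    have e : a - b = (w * V - y * u) - (V * w - u * y) := by rw [ha, hb]; abel
    rw [e]
    refine (norm_sub_le _ _).trans ?_
    have h1 := mul_close (a := w) (b := V) (c := y) (d := u) hV1 hy1 hyw hVu (by norm_num)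
    have h2 := mul_close (a := V) (b := w) (c := u) (d := y) hw1 hu1 hVu hyw (by norm_num)
    linarith
  have hsab : ‖star a - star b‖ ≤ 4 / 100 := by
    rw [← star_sub, norm_star]; exact hab
  have hprod : ‖star a * a - star b * b‖ ≤ 16 / 100 := by
    have hb2' : ‖star b‖ ≤ 2 := by rw [norm_star]; exact hb2
    have h1 := mul_close (a := star a) (b := a) (c := star b) (d := b) ha2 hb2' hsab hab
      (by norm_num)
    linarith
  have h3 := hTRC H M N ζ ξ hζ hM hξ (1 / 100) (by norm_num) hMN (star b * b)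
    (mul_mem (star_mem hbM) hbM) (star a * a) (mul_mem (star_mem haN) haN)
  have hA4 : ‖star a * a‖ ≤ 4 := by
    have := mul_norm_two (a := star a) (b := a) (α := 2) (β := 2)
      (by rw [norm_star]; exact ha2) ha2
    linarith
  have hB4 : ‖star b * b‖ ≤ 4 := by
    have := mul_norm_two (a := star b) (b := b) (α := 2) (β := 2)
      (by rw [norm_star]; exact hb2) hb2
    linarith
  have h4 : ‖star b * b - star a * a‖ ≤ 16 / 100 := by rw [norm_sub_rev]; exact hprod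
  have hbn : n2 ζ b < 1 / 32 := by
    have e : b = -(u * y - y * u) := by rw [hb]; abel
    rw [e, n2_neg]
    exact hs
  have hbn2 : n2 ζ b ^ 2 ≤ 1 / 1000 := by
    have := n2_nonneg ζ b
    nlinarith
  have h5 : ‖tr ξ (star a * a)‖ ≤ ‖tr ζ (star b * b)‖ + 32 / 100 := by
    have h6 := norm_sub_norm_le (tr ξ (star a * a)) (tr ζ (star b * b))
    linarith
  rw [tr_star_mul hξ.sum, tr_star_mul hζ.sum, Complex.norm_real, Complex.norm_real,
    Real.norm_of_nonneg (sq_nonneg _), Real.norm_of_nonneg (sq_nonneg _)] at h5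
  rw [← ha]
  refine Real.le_sqrt_of_sq_le ?_
  linarith

theorem pf_TRA (hTRC : T_TRC) (hSPG : T_SPG) (hUNS : T_UNS) : T_TRA := by
  intro H _ _ _ M N ξ hM hG hξ hMN hNM F hF δ hδ
  classical
  obtain ⟨ζ, hζ, hgam⟩ := hG
  have hU : ∀ x : H →L[ℂ] H, ∃ (c : Fin 4 → ℂ) (u : Fin 4 → (H →L[ℂ] H)),
      (∀ i, Uni N (u i)) ∧ (x ∈ N → (∀ i, ‖c i‖ ≤ ‖x‖) ∧ x = ∑ i, c i • u i) := by
    intro x
    by_cases hx : x ∈ N
    · obtain ⟨c, u, h1, h2, h3⟩ := hUNS H N x hx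
      exact ⟨c, u, h1, fun _ => ⟨h2, h3⟩⟩
    · exact ⟨fun _ => 0, fun _ => 1, fun _ => uni_one N, fun h => absurd h hx⟩
  choose c U hUu hUx using hU
  obtain ⟨C, hC0, hC⟩ : ∃ C : ℝ, 0 ≤ C ∧ ∀ x ∈ F, ‖x‖ ≤ C := by
    refine ⟨∑ x ∈ F, ‖x‖, Finset.sum_nonneg fun _ _ => norm_nonneg _, fun x hx => ?_⟩
    exact Finset.single_le_sum (f := fun x : H →L[ℂ] H => ‖x‖) (fun _ _ => norm_nonneg _) hx
  obtain ⟨δ', hδ', hδ''⟩ : ∃ δ' : ℝ, 0 < δ' ∧ 4 * C * δ' < δ := by
    refine ⟨δ / (4 * C + 1), by positivity, ?_⟩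
    rw [← mul_div_assoc, div_lt_iff₀ (by positivity)]
    nlinarith
  obtain ⟨W, hW, hWT⟩ := hSPG H N ξ hξ (F.biUnion fun x => Finset.univ.image (U x))
    (by
      intro x hx
      rw [Finset.mem_biUnion] at hx
      obtain ⟨z, _, hz⟩ := hx
      rw [Finset.mem_image] at hz
      obtain ⟨i, _, hi⟩ := hz
      rw [← hi]
      exact hUu z i) δ' hδ'
  have hY : ∀ w : H →L[ℂ] H, ∃ y ∈ M, ‖y‖ ≤ 1 ∧ (w ∈ W → ‖w - y‖ ≤ 1 / 100) := by
    intro w
    by_cases hw : w ∈ W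
    · obtain ⟨y, h1, h2, h3⟩ := hNM w (hW w hw).1 (norm_of_uni (hW w hw))
      exact ⟨y, h1, h2, fun _ => h3⟩
    · exact ⟨1, one_mem M, norm_of_uni (uni_one M), fun h => absurd h hw⟩
  choose Y hYM hY1 hYw using hY
  obtain ⟨u, hu, hu0, huc⟩ := hgam (W.image Y)
    (by
      intro x hx
      rw [Finset.mem_image] at hx
      obtain ⟨w, _, hw⟩ := hx
      rw [← hw]
      exact hYM w) (1 / 32) (by norm_num)
  have hu1 := norm_of_uni hu
  obtain ⟨V, hV, hV1, huV⟩ := hMN u hu.1 hu1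
  obtain ⟨T, hT, hTF⟩ := hWT V hV hV1
  have hTN : T ∈ N := by
    refine Mc.mem ?_ hT
    rintro x ⟨w, hw, rfl⟩
    exact mul_mem (mul_mem (hW w hw).1 hV) (star_mem (hW w hw).1)
  have hT1 : ‖T‖ ≤ 1 := by
    have := Mc.norm_le (V := 0) (r := 1) (O := {z | ∃ w ∈ W, z = w * V * star w}) ?_ hT
    · rwa [sub_zero] at this
    · rintro x ⟨w, hw, rfl⟩
      rw [sub_zero]
      exact (norm_conj_le (hW w hw) V).trans hV1
  refine ⟨T, hTN, hT1, fun x hx => ?_, ?_⟩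
  · obtain ⟨hc, hxe⟩ := hUx x (hF x hx)
    have e : T * x - x * T = ∑ i, c x i • (T * U x i - U x i * T) := by
      have h1 : T * x - x * T = T * (∑ i, c x i • U x i) - (∑ i, c x i • U x i) * T := by
        rw [← hxe]
      rw [h1, Finset.mul_sum, Finset.sum_mul, ← Finset.sum_sub_distrib]
      refine Finset.sum_congr rfl fun i _ => ?_
      rw [smul_sub, mul_smul_comm, smul_mul_assoc]
    rw [e]
    refine (n2_sum hξ.sum _ _).trans_lt ?_
    have h2 : ∀ i ∈ (Finset.univ : Finset (Fin 4)),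
        n2 ξ (c x i • (T * U x i - U x i * T)) ≤ C * δ' := by
      intro i _
      rw [n2_smul hξ.sum]
      refine mul_le_mul ((hc i).trans (hC x hx)) ?_ (n2_nonneg _ _) hC0
      rw [n2_sub_comm]
      refine (hTF (U x i) ?_).le
      rw [Finset.mem_biUnion]
      exact ⟨x, hx, Finset.mem_image_of_mem _ (Finset.mem_univ _)⟩
    refine (Finset.sum_le_sum h2).trans_lt ?_
    rw [Finset.sum_const, Finset.card_univ, Fintype.card_fin, nsmul_eq_mul]
    push_cast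
    linarith
  · have hTV : n2 ξ (T - V) ≤ Real.sqrt (321 / 1000) := by
      refine Mc.n2_le hξ.sum (O := {z | ∃ w ∈ W, z = w * V * star w}) ?_ hT
      rintro x ⟨w, hw, rfl⟩
      rw [n2_comm_uni hξ (hW w hw) hV]
      refine comm_close hTRC M N ξ ζ hM hζ hξ hMN hu.1 (hYM w) hu1 (hY1 w) hV (hW w hw).1 hV1
        (norm_of_uni (hW w hw)) huV (hYw w hw) ?_
      exact huc (Y w) (Finset.mem_image_of_mem _ hw)
    have htT : tr ξ T = tr ξ V := by
      refine Mc.tr_eq hξ.sum (O := {z | ∃ w ∈ W, z = w * V * star w}) ?_ hT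
      rintro x ⟨w, hw, rfl⟩
      exact tr_conj hξ (hW w hw) hV
    have htV : ‖tr ξ V‖ ≤ 5 / 100 := by
      have h1 := hTRC H M N ζ ξ hζ hM hξ (1 / 100) (by norm_num) hMN u hu.1 V hV
      rw [hu0, sub_zero] at h1
      linarith
    have hnV : 98 / 100 ≤ n2 ξ V ^ 2 := by
      have h1 : ‖star V * V - star u * u‖ ≤ 2 / 100 := by
        have hVu : ‖V - u‖ ≤ 1 / 100 := by rw [norm_sub_rev]; exact huV
        have hsu : ‖star u‖ ≤ 1 := by rw [norm_star]; exact hu1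
        have hsV : ‖star V - star u‖ ≤ 1 / 100 := by rw [← star_sub, norm_star]; exact hVu
        have h2 := mul_close (a := star V) (b := V) (c := star u) (d := u) hV1 hsu hsV hVu
          (by norm_num)
        linarith
      rw [hu.2.1] at h1
      have h3 := (norm_tr_le' hξ.one (star V * V - 1)).trans h1
      rw [tr_sub hξ.sum, tr_one' hξ.one, tr_star_mul hξ.sum] at h3
      have h4 : (((n2 ξ V ^ 2 : ℝ) : ℂ) - 1) = ((n2 ξ V ^ 2 - 1 : ℝ) : ℂ) := by push_cast; rfl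
      rw [h4, Complex.norm_real, Real.norm_eq_abs, abs_le] at h3
      linarith [h3.1]
    have h6 := n2_sub_tr hξ.one T
    rw [htT] at h6
    have h7 : n2 ξ V ≤ n2 ξ T + n2 ξ (T - V) := by
      have := n2_sub_le hξ.sum V T 0
      rw [sub_zero, sub_zero, n2_sub_comm ξ V T] at this
      linarith
    have h8 : Real.sqrt (321 / 1000) ≤ 567 / 1000 := by
      rw [Real.sqrt_le_left (by norm_num)]
      norm_num
    have h9 : 989 / 1000 ≤ n2 ξ V := by
      by_contra hne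
      push Not at hne
      have := n2_nonneg ξ V
      nlinarith
    have h10 : 422 / 1000 ≤ n2 ξ T := by linarith
    have h11 : (2 / 5 : ℝ) ^ 2 ≤ n2 ξ (T - tr ξ V • (1 : H →L[ℂ] H)) ^ 2 := by
      rw [h6]
      have := norm_nonneg (tr ξ V)
      nlinarith
    rw [htT]
    exact le_of_sq_le_sq h11 (n2_nonneg _ _)

end Pool.Agent.H39.G2
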